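import Mathlib
import Pool.Agent.Q230.BzT112

/-!
# Stone-and-bone tilings of the `(n+2, 2n+1)`-benzel

MP_5ac57a_co, Q1: for every `n ≥ 1`, the number `T₁₁₂(n+2, 2n+1)` of tilings of the
`(n+2, 2n+1)`-benzel by right stones, left stones and bones in two fixed directions is the large
Schröder number `S_n`. The theorem holds for each of the three choices of the forbidden bone
direction `i`.

The definitions `benzel`, `IsRightStone`, `IsLeftStone`, `IsBone`, `IsTiling`, `numTilings` are in
`Pool/Agent/Q230/BzDefs.lean`; `IsRoyalPath` and `largeSchroeder` are in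
`Pool/Agent/Q230/BzSchr.lean`.
-/

namespace Pool.Agent.Results.MP_5ac57a_co.SchroederCount

open Q230.Benzel

theorem result (n : ℕ) (_hn : 1 ≤ n) (i : Fin 3) :
    numTilings (fun t => IsRightStone t ∨ IsLeftStone t ∨ ∃ j, j ≠ i ∧ IsBone j t)
      (benzel (n+2) (2*n+1)) = largeSchroeder n := by
  have h1 := Q230.Bz.T112A i n
  have h2 := Q230.Bz.schroeder_eq n
  have h3 : (numTilings (Q230.Bz.Al112 i) (benzel (n+2) (2*n+1)) : ℤ) = (largeSchroeder n : ℤ) :=
    h1.trans h2.symm
  exact_mod_cast h3

end Pool.Agent.Results.MP_5ac57a_co.SchroederCount
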